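import Pool.Agent.V11304.PI.PowBinom

/-!
# MP_9b2749_nt, Q1: sums of `m`-th powers of `binom(r/m, k)` modulo `p ^ 3` (true)

With `p - r = m (s + 1)` and `z = p/m`, `(-1)^k binom(r/m, k) = ∏_{i ≤ k} (1 - z/i) · Q(k)`, where `Q` is
a polynomial of degree `s`. Modulo `p³` the `m`-th power of the first factor is
`(-1)^k binom(p-1, k) (1 + (m-1)/(2m) p² H_k^{(2)})`. The first term gives a finite difference of order
`p - 1` of a polynomial of degree `m s < p - 1`, that is, `0`; the second one vanishes modulo `p` by the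
symmetry `k → p - 1 - s - k` and since the sum of a polynomial of degree `< p - 1` over all residues is `0`.
-/

set_option autoImplicit false

namespace Pool.Agent.Results.MP_9b2749_nt.Full

open Finset

/-- `binom(x, k) = x (x - 1) ⋯ (x - k + 1) / k!` -/
def binom (x : ℚ) (k : ℕ) : ℚ := (∏ i ∈ range k, (x - i)) / (k.factorial : ℚ)

/-- the sum `S_{m,r}(p)` -/
def S (m : ℕ) (r : ℤ) (p : ℕ) : ℚ :=
  ∑ k ∈ range p, (-1) ^ (k * m) * binom ((r : ℚ) / m) k ^ m

/-- `x ≡ 0 (mod p ^ n)` in the ring of rational numbers with denominator prime to `p` -/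
def CongZero (p n : ℕ) (x : ℚ) : Prop := ∃ u : ℚ, ¬ p ∣ u.den ∧ x = (p : ℚ) ^ n * u

open Pool.Agent.V11304.PI in
lemma general (m : ℕ) (r : ℤ) (p : ℕ) (hp : p.Prime) (hp2 : p ≠ 2) (hm : 2 < m)
    (hpm : ¬ p ∣ m) (hr : r < p) (hpar : (m : ℤ) % 2 ≠ r % 2) (hmod : (p : ℤ) ≡ r [ZMOD m])
    (h : 1 < r + m) : CongZero p 3 (S m r p) := by
  have := Fact.mk hp
  obtain ⟨t, ht⟩ := (Int.modEq_iff_dvd.1 hmod.symm)
  have hm0 : (0 : ℤ) < m := by omega
  have ht0 : 0 < t := by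
    by_contra hcon
    push Not at hcon
    have := mul_nonpos_of_nonneg_of_nonpos hm0.le hcon
    omega
  obtain ⟨s, hs⟩ : ∃ s : ℕ, t = s + 1 := ⟨(t - 1).toNat, by omega⟩
  have hpr : (p : ℤ) - r = m * (s + 1) := by rw [ht, hs]
  have hpr' : (p : ℤ) - r = m * s + m := by rw [hpr]; ring
  have hmz : (m : ZMod p) ≠ 0 := by
    intro h1
    exact hpm ((ZMod.natCast_eq_zero_iff _ _).1 h1)
  have hsm : m * s < p - 1 := by
    have h1 : ((m * s : ℕ) : ℤ) = (p : ℤ) - r - m := by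
      push_cast
      linarith
    omega
  have hodd := hp.eq_two_or_odd.resolve_left hp2
  have heven : Even (s * m) := by
    by_contra hcon
    rw [Nat.not_even_iff_odd, Nat.odd_mul] at hcon
    obtain ⟨⟨a, ha⟩, ⟨b, hb⟩⟩ := hcon
    have h1 : (m : ℤ) * s + m = 2 * (m * (a + 1)) := by
      rw [ha]
      push_cast
      ring
    omega
  have hmain := main (p := p) (m := m) (s := s) hp2 (by omega) hmz hsm heven
  have hmq : (m : ℚ) ≠ 0 := by
    have : m ≠ 0 := by omega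
    exact_mod_cast this
  have hx : (r : ℚ) / m = (p : ℚ) / m - (s + 1) := by
    have h1 : (p : ℚ) - r = m * (s + 1) := by exact_mod_cast hpr
    field_simp
    linarith
  have hS : S m r p = ∑ k ∈ range p, ((-1) ^ k *
      ((∏ i ∈ range k, ((p : ℚ) / m - (s + 1) - (i : ℚ))) / (k.factorial : ℚ))) ^ m := by
    unfold S binom
    rw [hx]
    apply sum_congr rfl
    intro k _
    rw [mul_pow ((-1 : ℚ) ^ k), ← pow_mul]
  rw [hS]
  exact hmain.den

/-- **Q1**, together with the same congruence under the weaker condition `r + m > 1`. -/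
theorem result :
    (∀ (m : ℕ) (r : ℤ) (p : ℕ), p.Prime → p ≠ 2 → 2 < m → ¬ p ∣ m → r < p →
      (m : ℤ) % 2 ≠ r % 2 → (p : ℤ) ≡ r [ZMOD m] → -(m : ℚ) / 2 ≤ r → CongZero p 3 (S m r p)) ∧
    (∀ (m : ℕ) (r : ℤ) (p : ℕ), p.Prime → p ≠ 2 → 2 < m → ¬ p ∣ m → r < p →
      (m : ℤ) % 2 ≠ r % 2 → (p : ℤ) ≡ r [ZMOD m] → 1 < r + m → CongZero p 3 (S m r p)) := by
  refine ⟨?_, general⟩
  intro m r p hp hp2 hm hpm hr hpar hmod h
  apply general m r p hp hp2 hm hpm hr hpar hmod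
  have h1 : -(m : ℚ) ≤ 2 * r := by linarith
  have h2 : -(m : ℤ) ≤ 2 * r := by exact_mod_cast h1
  omega

end Pool.Agent.Results.MP_9b2749_nt.Full
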